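import Pool.Agent.N522.PES.Main

/-!
# The Eichler–Shimura conjecture: a potential criterion
-/

open Pool.Agent.N522.PES

/-- Let `f` be a Hilbert newform of parallel weight two over a totally real field `F`. (i) `f` has an
associated abelian variety if and only if, for some finite extension `F'/F`, the restriction of
`ρ_f` to `G_{F'}` occurs in an abelian variety over `F'`. (ii) If `ρ_f` and `ρ_g` are potentially
isomorphic, for newforms over possibly different totally real fields, and `g` has an associated
abelian variety, so does `f`. (iii) If `F/F₀` is a solvable Galois extension of totally real fields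
and all conjugates of `f` over `F₀` are twists of `f`, then there is a newform `g` over `F₀`
potentially equivalent to `f`; `f` has an associated abelian variety if `[F₀ : ℚ]` is odd or `g` is
a discrete series at a finite place. -/
theorem Pool.Agent.Results.MP_e1ffa3_nt.PotentialCriterion.result
    (T : Theory) (hT : Facts T) (hM : ModularFacts T) :
    (∀ (F : T.Fld) (f : T.Form F), T.Real F →
      (T.Associated f ↔ ∃ (F' : T.Fld) (i : T.Ext F F') (B : T.AV F'), T.Occ i f B)) ∧
    (∀ (F₁ F₂ : T.Fld) (f : T.Form F₁) (g : T.Form F₂), T.Real F₁ → T.Real F₂ → PotEquiv f g →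
      T.Associated g → T.Associated f) ∧
    (∀ (F₀ F : T.Fld) (i : T.Ext F₀ F) (f : T.Form F), T.Real F₀ → T.Real F → T.Solvable i →
      T.TwistInvariant i f → (T.Odd F₀ → T.Associated f) ∧
        ∃ g : T.Form F₀, PotEquiv f g ∧ (T.Discrete g → T.Associated f)) := by
  refine ⟨fun _ f hF => (hT.assoc f hF).trans (hasA_iff hT hF f), ?_, ?_⟩
  · intro F₁ F₂ f g h1 h2 h hg
    exact (hT.assoc f h1).mpr (hasA_of_potEquiv hT h1 f g h ((hT.assoc g h2).mp hg))
  · intro F₀ F i f h0 hF hs ht
    obtain ⟨ho, g, hg, -, hd⟩ := hasA_of_twistInvariant hT hM i f h0 hF hs ht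
    exact ⟨fun h => (hT.assoc f hF).mpr (ho h), g, hg, fun h => (hT.assoc f hF).mpr (hd h)⟩
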